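import Pool.Agent.Helper77.SUBK.SheetP
import Pool.Agent.Helper2.SUB.QUO

/-!
Project SUBK, row QUOM: passage to a quotient, coefficients in a number field.
-/

set_option autoImplicit false

namespace Pool.Agent.Helper2.SUBK

open Finset Matrix Pool.Agent.Helper70.SUB Pool.Agent.Helper77.SUBK

section gen

variable {F : Type} [Field F]

/-- the matrix of the quotient -/
noncomputable def quoM {N : ℕ} (A : Matrix (Fin (N + 1)) (Fin (N + 1)) F) (i0 : Fin (N + 1)) :
    Matrix (Fin N) (Fin N) F :=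
  fun r l => A (i0.succAbove r) l.succ - A (i0.succAbove r) 0 / A i0 0 * A i0 l.succ

lemma quoM_mulVec {N : ℕ} (A : Matrix (Fin (N + 1)) (Fin (N + 1)) F) (i0 : Fin (N + 1))
    (h0 : A i0 0 ≠ 0) (x : Fin (N + 1) → F) (r : Fin N) :
    (quoM A i0).mulVec (fun l => x l.succ) r
      = A.mulVec x (i0.succAbove r) - A (i0.succAbove r) 0 / A i0 0 * A.mulVec x i0 := by
  simp only [Matrix.mulVec, dotProduct, quoM, Fin.sum_univ_succ, sub_mul, Finset.sum_sub_distrib]
  rw [mul_add, Finset.mul_sum]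
  have e : ∑ l : Fin N, A (i0.succAbove r) 0 / A i0 0 * A i0 l.succ * x l.succ
      = ∑ l : Fin N, A (i0.succAbove r) 0 / A i0 0 * (A i0 l.succ * x l.succ) :=
    Finset.sum_congr rfl fun l _ => by ring
  rw [e]
  have e2 : A (i0.succAbove r) 0 / A i0 0 * (A i0 0 * x 0) = A (i0.succAbove r) 0 * x 0 := by
    field_simp
  rw [e2]
  ring

lemma quoM_det {N : ℕ} (A : Matrix (Fin (N + 1)) (Fin (N + 1)) F) (i0 : Fin (N + 1))
    (h0 : A i0 0 ≠ 0) (hA : A.det ≠ 0) : (quoM A i0).det ≠ 0 := by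
  intro hdet
  obtain ⟨y, hy, hy0⟩ := Matrix.exists_mulVec_eq_zero_iff.mpr hdet
  set x : Fin (N + 1) → F := Fin.cons (-(∑ l : Fin N, A i0 l.succ * y l) / A i0 0) y with hx
  apply hA
  refine Matrix.exists_mulVec_eq_zero_iff.mp ⟨x, ?_, ?_⟩
  · intro h
    apply hy
    funext l
    have := congrFun h l.succ
    simpa [hx] using this
  · have hi0 : A.mulVec x i0 = 0 := by
      simp only [Matrix.mulVec, dotProduct, Fin.sum_univ_succ, hx, Fin.cons_zero, Fin.cons_succ]
      field_simp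
      ring
    funext i
    by_cases hi : i = i0
    · rw [hi, hi0]
      rfl
    · obtain ⟨r, hr⟩ := Fin.exists_succAbove_eq hi
      have h1 := quoM_mulVec A i0 h0 x r
      have h2 : (fun l : Fin N => x l.succ) = y := by
        funext l
        simp [hx]
      rw [h2, hy0, hi0, mul_zero, sub_zero, hr] at h1
      exact h1.symm

lemma quoM_dual {N : ℕ} (A : Matrix (Fin (N + 1)) (Fin (N + 1)) F) (i0 : Fin (N + 1))
    (h0 : A i0 0 ≠ 0) (hA : A.det ≠ 0) (h : Fin (N + 1) → F) (hh : h 0 = 0) (r : Fin N) :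
    ((quoM A i0)⁻¹)ᵀ.mulVec (fun l => h l.succ) r = (A⁻¹)ᵀ.mulVec h (i0.succAbove r) := by
  set w : Fin (N + 1) → F := (A⁻¹)ᵀ.mulVec h with hw
  have hAw : Aᵀ.mulVec w = h := by
    rw [hw, Matrix.mulVec_mulVec, ← Matrix.transpose_mul,
      Matrix.nonsing_inv_mul A (isUnit_iff_ne_zero.mpr hA), Matrix.transpose_one, Matrix.one_mulVec]
  have hAw' : ∀ l, A i0 l * w i0 + ∑ r : Fin N, A (i0.succAbove r) l * w (i0.succAbove r) = h l := by
    intro l
    have := congrFun hAw l
    rw [← this]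
    simp only [Matrix.mulVec, dotProduct, Matrix.transpose_apply]
    rw [Fin.sum_univ_succAbove _ i0]
  have hq : ((quoM A i0)ᵀ).mulVec (fun r => w (i0.succAbove r)) = fun l => h l.succ := by
    funext l
    simp only [Matrix.mulVec, dotProduct, Matrix.transpose_apply, quoM, sub_mul,
      Finset.sum_sub_distrib]
    have e : ∑ r : Fin N, A (i0.succAbove r) 0 / A i0 0 * A i0 l.succ * w (i0.succAbove r)
        = A i0 l.succ / A i0 0 * ∑ r : Fin N, A (i0.succAbove r) 0 * w (i0.succAbove r) := by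
      rw [Finset.mul_sum]
      exact Finset.sum_congr rfl fun r _ => by ring
    have e0 : ∑ r : Fin N, A (i0.succAbove r) 0 * w (i0.succAbove r) = - (A i0 0 * w i0) := by
      have := hAw' 0
      rw [hh] at this
      exact eq_neg_of_add_eq_zero_right this
    rw [e, e0]
    have e1 := hAw' l.succ
    rw [← e1]
    field_simp
    ring
  have hdet := quoM_det A i0 h0 hA
  have h3 : (fun r => w (i0.succAbove r)) = ((quoM A i0)⁻¹)ᵀ.mulVec (fun l => h l.succ) := by
    rw [← hq, Matrix.mulVec_mulVec, ← Matrix.transpose_mul,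
      Matrix.mul_nonsing_inv _ (isUnit_iff_ne_zero.mpr hdet), Matrix.transpose_one,
      Matrix.one_mulVec]
  exact (congrFun h3 r).symm

end gen

/-- the case where the `h j` have a vanishing first coordinate -/
lemma quo_aux (F : Type) [Field F] [NumberField F] (S : Finset ℕ) (P : PF S F) (N : ℕ)
    (A : Option ℕ → Matrix (Fin (N + 1)) (Fin (N + 1)) F)
    (K a δ : ℝ) (M : Set ℕ) (Q : ℕ → ℝ) (s : ℕ → Option ℕ → Fin (N + 1) → ℝ) (μ ν : ℕ → ℝ)
    (h : ℕ → Fin (N + 1) → ℤ)
    (hA : ∀ v ∈ plc S, (A v).det ≠ 0) (hR : RtM P A) (hK : 1 ≤ K) (ha : 0 < a) (hδ : 0 < δ)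
    (hseq : GSeqM P (N + 1) A K a δ M Q s μ ν h) (hh0 : ∀ j ∈ M, h j 0 = 0) :
    ∃ (A' : Option ℕ → Matrix (Fin N) (Fin N) F) (K' a' δ' : ℝ) (M' : Set ℕ)
      (s' : ℕ → Option ℕ → Fin N → ℝ) (μ' ν' : ℕ → ℝ),
      (∀ v ∈ plc S, (A' v).det ≠ 0) ∧ RtM P A' ∧ 1 ≤ K' ∧ 0 < a' ∧
      0 < δ' ∧ M' ⊆ M ∧ GSeqM P N A' K' a' δ' M' Q s' μ' ν' (fun j l => h j l.succ) := by
  classical
  -- the index
  have hex : ∀ j, ∀ v : plc S, ∃ i0 : Fin (N + 1), A v.1 i0 0 ≠ 0 ∧
      ∀ i, A v.1 i 0 ≠ 0 → s j v.1 i0 ≤ s j v.1 i := by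
    intro j v
    have hne : (Finset.univ.filter (fun i => A v.1 i 0 ≠ 0)).Nonempty := by
      by_contra hcon
      rw [Finset.not_nonempty_iff_eq_empty] at hcon
      apply hA v.1 v.2
      apply Matrix.det_eq_zero_of_column_eq_zero 0
      intro i
      by_contra hi
      have : i ∈ Finset.univ.filter (fun i => A v.1 i 0 ≠ 0) := by
        rw [Finset.mem_filter]
        exact ⟨Finset.mem_univ _, hi⟩
      rw [hcon] at this
      simp at this
    obtain ⟨i0, hi0, hmin⟩ := Finset.exists_min_image _ (fun i => s j v.1 i) hne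
    rw [Finset.mem_filter] at hi0
    refine ⟨i0, hi0.2, fun i hi => hmin i ?_⟩
    rw [Finset.mem_filter]
    exact ⟨Finset.mem_univ _, hi⟩
  choose f hf1 hf2 using hex
  obtain ⟨f0, hf0⟩ := Pool.Agent.Helper2.SUB.pigeon M hseq.inf (fun j => (f j : plc S → Fin (N + 1)))
  set M1 : Set ℕ := {j | j ∈ M ∧ f j = f0} with hM1
  -- the constant
  set C : ℝ := 1 + ∑ v : plc S, ∑ i, P.nv v.1 (A v.1 i 0 / A v.1 (f0 v) 0) with hC
  have hC1 : 1 ≤ C := by
    rw [hC]
    have : 0 ≤ ∑ v : plc S, ∑ i, P.nv v.1 (A v.1 i 0 / A v.1 (f0 v) 0) :=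
      Finset.sum_nonneg fun v _ => Finset.sum_nonneg fun i _ => P.nn _ _
    linarith
  have hC0 : 0 < C := lt_of_lt_of_le one_pos hC1
  have hCv : ∀ (v : plc S) i, 1 + P.nv v.1 (A v.1 i 0 / A v.1 (f0 v) 0) ≤ C := by
    intro v i
    rw [hC]
    have h1 : P.nv v.1 (A v.1 i 0 / A v.1 (f0 v) 0)
        ≤ ∑ i, P.nv v.1 (A v.1 i 0 / A v.1 (f0 v) 0) :=
      Finset.single_le_sum (f := fun i => P.nv v.1 (A v.1 i 0 / A v.1 (f0 v) 0))
        (fun i _ => P.nn _ _) (Finset.mem_univ i)
    have h2 : ∑ i, P.nv v.1 (A v.1 i 0 / A v.1 (f0 v) 0)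
        ≤ ∑ v : plc S, ∑ i, P.nv v.1 (A v.1 i 0 / A v.1 (f0 v) 0) :=
      Finset.single_le_sum (f := fun v : plc S => ∑ i, P.nv v.1 (A v.1 i 0 / A v.1 (f0 v) 0))
        (fun v _ => Finset.sum_nonneg fun i _ => P.nn _ _) (Finset.mem_univ v)
    linarith
  -- extension of the index to all places
  set g : Option ℕ → Fin (N + 1) := fun v => if hv : v ∈ plc S then f0 ⟨v, hv⟩ else 0 with hg
  have hgv : ∀ v (hv : v ∈ plc S), g v = f0 ⟨v, hv⟩ := by
    intro v hv
    rw [hg]
    simp only [hv, dif_pos]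
  have hne0 : M1.Nonempty := hf0.nonempty
  have hg1 : ∀ v ∈ plc S, A v (g v) 0 ≠ 0 := by
    intro v hv
    obtain ⟨j, hj⟩ := hne0
    have := hf1 j ⟨v, hv⟩
    rw [hj.2] at this
    rw [hgv v hv]
    exact this
  have hg2 : ∀ j ∈ M1, ∀ v ∈ plc S, ∀ i, A v i 0 ≠ 0 → s j v (g v) ≤ s j v i := by
    intro j hj v hv i hi
    have := hf2 j ⟨v, hv⟩ i hi
    rw [hj.2] at this
    rw [hgv v hv]
    exact this
  have hCg : ∀ v ∈ plc S, ∀ i, 1 + P.nv v (A v i 0 / A v (g v) 0) ≤ C := by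
    intro v hv i
    rw [hgv v hv]
    exact hCv ⟨v, hv⟩ i
  -- large indices
  obtain ⟨J, hJ⟩ : ∃ J : ℕ, ∀ j, J ≤ j → 1 ≤ Q j ∧ C ≤ Q j ∧
      C ^ (plc S).card ≤ Q j ^ (δ / 2) := by
    have h1 := hseq.lim.eventually_ge_atTop 1
    have h2 := hseq.lim.eventually_ge_atTop C
    have h3 : Filter.Tendsto (fun j => Q j ^ (δ / 2)) Filter.atTop Filter.atTop :=
      (tendsto_rpow_atTop (by positivity : 0 < δ / 2)).comp hseq.lim
    have h4 := h3.eventually_ge_atTop (C ^ (plc S).card)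
    obtain ⟨J, hJ⟩ := Filter.eventually_atTop.mp (h1.and (h2.and h4))
    exact ⟨J, hJ⟩
  set M' : Set ℕ := {j | j ∈ M1 ∧ J ≤ j} with hM'
  have hM'inf : M'.Infinite := by
    have h1 : M1 ⊆ M' ∪ {j | j < J} := by
      intro j hj
      by_cases hjJ : J ≤ j
      · exact Or.inl ⟨hj, hjJ⟩
      · exact Or.inr (not_le.mp hjJ)
    intro hfin
    exact hf0 ((hfin.union (Set.finite_lt_nat J)).subset h1)
  have hsub : M' ⊆ M := fun j hj => hj.1.1
  refine ⟨fun v => quoM (A v) (g v), C * K, a + 1, δ / 2, M',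
    fun j v r => C * s j v ((g v).succAbove r), μ, fun j => ν j / C ^ (plc S).card,
    fun v hv => quoM_det _ _ (hg1 v hv) (hA v hv), ?_, ?_, by linarith, by linarith, hsub, ?_⟩
  · intro v hv r l
    simp only [quoM]
    refine Rt.sub hv (hR v hv _ _) (Rt.mul hv ?_ (hR v hv _ _))
    rw [div_eq_mul_inv]
    exact Rt.mul hv (hR v hv _ _) (Rt.inv hv (hR v hv _ _))
  · nlinarith
  have hCp : 0 < C ^ (plc S).card := pow_pos hC0 _
  refine ⟨hM'inf, hseq.lim, ?_, ?_, ?_, ?_, ?_⟩
  · -- GHyp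
    intro j hj
    have hjM := hsub hj
    have hG := hseq.hyp j hjM
    have hj0 := hh0 j hjM
    refine ⟨?_, ?_, hG.mupos, div_pos hG.nupos hCp, ?_, ?_⟩
    · intro d hd
      refine hG.prim d fun i => ?_
      refine Fin.cases ?_ (fun l => ?_) i
      · rw [hj0]
        exact dvd_zero _
      · exact hd l
    · intro v hv r
      exact mul_pos hC0 (hG.spos v hv _)
    · intro y' hy'
      obtain ⟨c, hc⟩ := hG.ann (Fin.cons 0 y' : Fin (N + 1) → ℚ) (by
        intro x hx
        rw [Fin.sum_univ_succ]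
        simp only [Fin.cons_zero, zero_mul, Fin.cons_succ, zero_add]
        refine hy' (fun l => x l.succ) ?_
        intro v hv r
        have e : (cM (fun l : Fin N => x l.succ) : Fin N → F)
            = fun l : Fin N => (cM x : Fin (N + 1) → F) l.succ := rfl
        rw [e, quoM_mulVec _ _ (hg1 v hv)]
        set i := (g v).succAbove r with hi
        set m : ℝ := if v = none then μ j else 1 with hm
        have hmpos : 0 < m := by
          rw [hm]
          split_ifs
          · exact hG.mupos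
          · exact one_pos
        have hxi := hx v hv i
        have hxg := hx v hv (g v)
        have hspos := hG.spos v hv i
        have hb : P.nv v (A v i 0 / A v (g v) 0) * P.nv v ((A v).mulVec (cM x) (g v))
            ≤ P.nv v (A v i 0 / A v (g v) 0) * (m * s j v i) := by
          by_cases hz : A v i 0 = 0
          · rw [hz, zero_div, P.nz, zero_mul, zero_mul]
          · refine mul_le_mul_of_nonneg_left ?_ (P.nn _ _)
            refine hxg.trans ?_
            exact mul_le_mul_of_nonneg_left (hg2 j hj.1 v hv i hz) hmpos.le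
        calc P.nv v ((A v).mulVec (cM x) i - A v i 0 / A v (g v) 0 * (A v).mulVec (cM x) (g v))
            ≤ P.nv v ((A v).mulVec (cM x) i)
              + P.nv v (A v i 0 / A v (g v) 0 * (A v).mulVec (cM x) (g v)) :=
              P.sub hv _ _
          _ = P.nv v ((A v).mulVec (cM x) i)
              + P.nv v (A v i 0 / A v (g v) 0) * P.nv v ((A v).mulVec (cM x) (g v)) := by
              rw [P.mul v hv]
          _ ≤ m * s j v i + P.nv v (A v i 0 / A v (g v) 0) * (m * s j v i) := add_le_add hxi hb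
          _ = (1 + P.nv v (A v i 0 / A v (g v) 0)) * (m * s j v i) := by ring
          _ ≤ C * (m * s j v i) :=
              mul_le_mul_of_nonneg_right (hCg v hv i) (by positivity)
          _ = m * (C * s j v i) := by ring)
      refine ⟨c, fun l => ?_⟩
      have := hc l.succ
      simpa using this
    · obtain ⟨t, ht1, ht2, ht3⟩ := hG.dual
      refine ⟨fun v => C * t v, fun v hv => mul_pos hC0 (ht1 v hv), ?_, ?_⟩
      · intro v hv r
        have e : (cM (fun l : Fin N => h j l.succ) : Fin N → F)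
            = fun l : Fin N => (cM (h j) : Fin (N + 1) → F) l.succ := rfl
        rw [e, quoM_dual _ _ (hg1 v hv) (hA v hv) _ (by simp [cM, hj0])]
        have := ht2 v hv ((g v).succAbove r)
        calc P.nv v (((A v)⁻¹)ᵀ.mulVec (cM (h j)) ((g v).succAbove r))
              * (C * s j v ((g v).succAbove r))
            = C * (P.nv v (((A v)⁻¹)ᵀ.mulVec (cM (h j)) ((g v).succAbove r))
              * s j v ((g v).succAbove r)) := by ring
          _ ≤ C * t v := mul_le_mul_of_nonneg_left this hC0.le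
      · rw [Finset.prod_mul_distrib, Finset.prod_const]
        rw [one_div_div]
        calc C ^ (plc S).card * ∏ v ∈ plc S, t v ≤ C ^ (plc S).card * (1 / ν j) :=
              mul_le_mul_of_nonneg_left ht3 hCp.le
          _ = C ^ (plc S).card / ν j := by ring
  · intro j hj p hp r
    exact mul_le_mul_of_nonneg_left (hseq.sK j (hsub hj) p hp _) hC0.le
  · intro j hj v hv r
    have h1 := (hJ j hj.2).1
    have h2 := hseq.lo j (hsub hj) v hv ((g v).succAbove r)
    have h3 := (hseq.hyp j (hsub hj)).spos v hv ((g v).succAbove r)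
    calc Q j ^ (-(a + 1)) ≤ Q j ^ (-a) := Real.rpow_le_rpow_of_exponent_le h1 (by linarith)
      _ ≤ s j v ((g v).succAbove r) := h2
      _ ≤ C * s j v ((g v).succAbove r) := by nlinarith
  · intro j hj v hv r
    have h1 := (hJ j hj.2).1
    have h1' := (hJ j hj.2).2.1
    have h2 := hseq.up j (hsub hj) v hv ((g v).succAbove r)
    have h3 : Q j ^ (a + 1) = Q j * Q j ^ a := by
      rw [Real.rpow_add (by linarith), Real.rpow_one]
      ring
    rw [h3]
    have h4 : 0 ≤ Q j ^ a := Real.rpow_nonneg (by linarith) _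
    calc C * s j v ((g v).succAbove r) ≤ C * Q j ^ a := mul_le_mul_of_nonneg_left h2 hC0.le
      _ ≤ Q j * Q j ^ a := mul_le_mul_of_nonneg_right h1' h4
  · intro j hj
    have h1 := (hJ j hj.2).1
    have h1' := (hJ j hj.2).2.2
    have h2 := hseq.gap j (hsub hj)
    have h3 : Q j ^ (-(δ / 2)) * (ν j / C ^ (plc S).card)
        = (Q j ^ (-δ) * ν j) * (Q j ^ (δ / 2) / C ^ (plc S).card) := by
      have : Q j ^ (-(δ / 2)) = Q j ^ (-δ) * Q j ^ (δ / 2) := by
        rw [← Real.rpow_add (by linarith)]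
        congr 1
        ring
      rw [this]
      ring
    rw [h3]
    have h4 : 1 ≤ Q j ^ (δ / 2) / C ^ (plc S).card := by
      rw [le_div_iff₀ hCp, one_mul]
      exact h1'
    have h5 : 0 ≤ Q j ^ (-δ) * ν j :=
      mul_nonneg (Real.rpow_nonneg (by linarith) _) (hseq.hyp j (hsub hj)).nupos.le
    calc μ j ≤ Q j ^ (-δ) * ν j := h2
      _ = (Q j ^ (-δ) * ν j) * 1 := by ring
      _ ≤ _ := mul_le_mul_of_nonneg_left h4 h5

lemma cM_mulVec {F : Type} [Field F] [NumberField F] {ι κ : Type} [Fintype κ] (W : Matrix ι κ ℤ)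
    (x : κ → ℤ) : (cM (W.mulVec x) : ι → F) = (mM F W).mulVec (cM x) := by
  funext i
  simp only [cM, Matrix.mulVec, dotProduct, Matrix.map_apply]
  push_cast
  rfl

theorem QUOM (hU : ST_UNI) : ST_QUOM := by
  intro F _ _ S P N A K a δ M Q s μ ν h u hN hS hA hR hK ha hδ hseq hu huh
  obtain ⟨u0, c0, hc0, hu0, huu0⟩ := Pool.Agent.Helper2.SUB.exists_prim u hu
  obtain ⟨T1, hT1, hT10⟩ := hU N u0 hu0
  set T0 : Matrix (Fin (N + 1)) (Fin (N + 1)) ℤ := T1⁻¹ with hT0
  have i01 : T0 * T1 = 1 := Matrix.nonsing_inv_mul T1 hT1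
  have i10 : T1 * T0 = 1 := Matrix.mul_nonsing_inv T1 hT1
  have q01 : mQ T0 * mQ T1 = 1 := by
    rw [← Pool.Agent.Helper2.SUB.mQ_mul', i01]
    ext i j
    simp [Matrix.one_apply]
  have m01 : (mM F T0) * mM F T1 = 1 := by
    rw [← mM_mul, i01, mM_one]
  have m10 : (mM F T1) * mM F T0 = 1 := by
    rw [← mM_mul, i10, mM_one]
  set h1 : ℕ → Fin (N + 1) → ℤ := fun j => T1ᵀ.mulVec (h j) with hh1
  have hback : ∀ j, T0ᵀ.mulVec (h1 j) = h j := by
    intro j
    rw [hh1]
    simp only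
    rw [Matrix.mulVec_mulVec, ← Matrix.transpose_mul, i10, Matrix.transpose_one,
      Matrix.one_mulVec]
  have h10 : ∀ j ∈ M, h1 j 0 = 0 := by
    intro j hj
    have e1 := huh j hj
    have e2 : c0 * ∑ i, (u0 i : ℚ) * (h j i : ℚ) = 0 := by
      rw [← e1, Finset.mul_sum]
      refine Finset.sum_congr rfl fun i _ => ?_
      rw [huu0 i]
      ring
    have e3 : ∑ i, (u0 i : ℚ) * (h j i : ℚ) = 0 := (mul_eq_zero.mp e2).resolve_left hc0
    have e4 : ((h1 j 0 : ℤ) : ℚ) = 0 := by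
      rw [← e3, hh1]
      simp only [Matrix.mulVec, dotProduct, Matrix.transpose_apply, hT10]
      push_cast
      rfl
    exact_mod_cast e4
  set A1 : Option ℕ → Matrix (Fin (N + 1)) (Fin (N + 1)) F := fun v => A v * mM F T1 with hA1
  have hdetT1 : (mM F T1).det ≠ 0 := by
    intro h0
    have := congrArg Matrix.det m01
    rw [Matrix.det_mul, h0, mul_zero, Matrix.det_one] at this
    exact zero_ne_one this
  have hA1d : ∀ v ∈ plc S, (A1 v).det ≠ 0 := by
    intro v hv
    rw [hA1]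
    simp only
    rw [Matrix.det_mul]
    exact mul_ne_zero (hA v hv) hdetT1
  have hA1R : RtM P A1 := by
    intro v hv i j
    rw [hA1]
    simp only
    refine Rt.mulM hv _ _ (hR v hv) ?_ i j
    intro i j
    exact Rt.int P _
  have hinvT1 : (mM F T1)⁻¹ = mM F T0 := Matrix.inv_eq_left_inv m01
  have hseq1 : GSeqM P (N + 1) A1 K a δ M Q s μ ν h1 := by
    refine ⟨hseq.inf, hseq.lim, ?_, hseq.sK, hseq.lo, hseq.up, hseq.gap⟩
    intro j hj
    have hG := hseq.hyp j hj
    refine ⟨?_, hG.spos, hG.mupos, hG.nupos, ?_, ?_⟩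
    · intro d hd
      refine hG.prim d fun i => ?_
      rw [← hback j]
      simp only [Matrix.mulVec, dotProduct]
      exact Finset.dvd_sum fun l _ => Dvd.dvd.mul_left (hd l) _
    · intro y hy
      obtain ⟨c, hc⟩ := hG.ann ((mQ T0)ᵀ.mulVec y) (by
        intro x hx
        have e1 : (fun i => (x i : ℚ)) = cv x := rfl
        have e2 := Pool.Agent.Helper2.SUB.dot_mulVec (mQ T0) y (cv x)
        have e3 := hy (T0.mulVec x) (by
          intro v hv i
          have e4 : (A1 v).mulVec (cM (T0.mulVec x)) = (A v).mulVec (cM x) := by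
            rw [cM_mulVec, hA1]
            simp only
            rw [Matrix.mulVec_mulVec, Matrix.mul_assoc, m10, Matrix.mul_one]
          rw [e4]
          exact hx v hv i)
        have e5 : ∑ i, y i * ((T0.mulVec x i : ℤ) : ℚ) = ∑ i, y i * ((mQ T0).mulVec (cv x)) i := by
          rw [← Pool.Agent.Helper2.SUB.cv_mulVec]
          rfl
        rw [e5, ← e2] at e3
        exact e3)
      refine ⟨c, fun i => ?_⟩
      have e1 : y = (mQ T1)ᵀ.mulVec ((mQ T0)ᵀ.mulVec y) := by
        rw [Matrix.mulVec_mulVec, ← Matrix.transpose_mul, q01, Matrix.transpose_one,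
          Matrix.one_mulVec]
      have e2 : (mQ T0)ᵀ.mulVec y = c • cv (h j) := by
        funext i
        rw [hc i]
        rfl
      rw [e1, e2, Matrix.mulVec_smul, Pi.smul_apply, smul_eq_mul]
      congr 1
      have e3 : (mQ T1)ᵀ = mQ (T1ᵀ) := rfl
      rw [e3, ← Pool.Agent.Helper2.SUB.cv_mulVec]
      rfl
    · obtain ⟨t, ht1, ht2, ht3⟩ := hG.dual
      refine ⟨t, ht1, ?_, ht3⟩
      intro v hv i
      have e1 : ((A1 v)⁻¹)ᵀ.mulVec (cM (h1 j)) = ((A v)⁻¹)ᵀ.mulVec (cM (h j)) := by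
        have e3 : (mM F T1)ᵀ = mM F (T1ᵀ) := rfl
        rw [hh1]
        simp only
        rw [cM_mulVec, ← e3, hA1]
        simp only
        rw [Matrix.mul_inv_rev, Matrix.transpose_mul, Matrix.mulVec_mulVec, Matrix.mul_assoc,
          ← Matrix.transpose_mul, hinvT1, m10, Matrix.transpose_one, Matrix.mul_one]
      rw [e1]
      exact ht2 v hv i
  obtain ⟨A', K', a', δ', M', s', μ', ν', hA', hR', hK', ha', hδ', hM', hseq'⟩ :=
    quo_aux F S P N A1 K a δ M Q s μ ν h1 hA1d hA1R hK ha hδ hseq1 h10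
  refine ⟨A', K', a', δ', M', s', μ', ν', fun j l => h1 j l.succ,
    fun i l => T0 l.succ i, hA', hR', hK', ha', hδ', hM', hseq', ?_⟩
  intro j hj
  have hj0 := h10 j (hM' hj)
  funext i
  have e1 := congrFun (hback j) i
  rw [← e1]
  simp only [Matrix.mulVec, dotProduct, Matrix.transpose_apply, Fin.sum_univ_succ]
  rw [hj0, mul_zero, zero_add]

end Pool.Agent.Helper2.SUBK
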