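import Pool.Agent.Helper66.SUBK.COREK
import Pool.Agent.Helper94.SUBK.CONJ

/-!
Project SUBK, row T1CG: `y = w ^ 3 +` smaller S-units, `x` an arbitrary integer.
-/

set_option autoImplicit false

namespace Pool.Agent.Helper2.SUBK

open Finset Pool.Agent.Helper70.SUB Pool.Agent.Helper77.SUBK Pool.Agent.Helper70.SUBL

/-- three numbers with small product and large pairwise sums: one of them is small -/
theorem three {A B D R T : ℝ} (hA : 0 ≤ A) (hB : 0 ≤ B) (hD : 0 ≤ D) (hR : 0 ≤ R)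
    (h1 : R ≤ A + B) (h2 : R ≤ A + D) (h3 : R ≤ B + D) (hT : A * B * D ≤ T) :
    A * R ^ 2 ≤ 4 * T ∨ B * R ^ 2 ≤ 4 * T ∨ D * R ^ 2 ≤ 4 * T := by
  have key : ∀ a b d : ℝ, 0 ≤ a → 0 ≤ b → 0 ≤ d → a ≤ b → a ≤ d → R ≤ a + b → R ≤ a + d →
      a * b * d ≤ T → a * R ^ 2 ≤ 4 * T := by
    intro a b d ha hb hd hab had r1 r2 hT
    have e1 : R ≤ 2 * b := by linarith
    have e2 : R ≤ 2 * d := by linarith
    have e3 : R * R ≤ (2 * b) * (2 * d) := mul_le_mul e1 e2 hR (by linarith)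
    have e4 : a * (R * R) ≤ a * ((2 * b) * (2 * d)) := mul_le_mul_of_nonneg_left e3 ha
    nlinarith
  rcases le_total A B with hAB | hAB
  · rcases le_total A D with hAD | hAD
    · exact Or.inl (key A B D hA hB hD hAB hAD h1 h2 hT)
    · exact Or.inr (Or.inr (key D A B hD hA hB hAD (hAD.trans hAB) (by linarith) (by linarith)
        (by linarith [mul_comm (A * B) D, mul_assoc D A B])))
  · rcases le_total B D with hBD | hBD
    · exact Or.inr (Or.inl (key B A D hB hA hD hAB hBD (by linarith) h3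
        (by linarith [mul_comm A B])))
    · exact Or.inr (Or.inr (key D A B hD hA hB (hBD.trans hAB) hBD (by linarith) (by linarith)
        (by linarith [mul_comm (A * B) D, mul_assoc D A B])))

/-- the cube roots of a number close to `x ^ 3` -/
theorem near (ζ F : ℂ) (x : ℝ) (hζ : ζ ^ 2 + ζ + 1 = 0) (hx : 2048 ≤ x)
    (h : ‖F ^ 3 - (x : ℂ) ^ 3‖ ≤ 2 * x) :
    ∃ i : Fin 3, ‖(x : ℂ) - ζ ^ (i : ℕ) * F‖ ≤ x ^ (-(1 / 2 : ℝ)) := by
  have xp : 0 < x := by linarith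
  have z3 : ζ ^ 3 = 1 := by linear_combination (ζ - 1) * hζ
  have nz : ‖ζ‖ = 1 := by
    have h1 : ‖ζ‖ ^ 3 = 1 := by rw [← norm_pow, z3, norm_one]
    exact (pow_eq_one_iff_of_nonneg (norm_nonneg _) (by norm_num)).1 h1
  have n1 : 1 ≤ ‖1 - ζ‖ := by
    have h1 : ‖1 - ζ‖ ^ 2 = 3 := by
      rw [← norm_pow]
      have : (1 - ζ) ^ 2 = -(3 * ζ) := by linear_combination hζ
      rw [this, norm_neg, norm_mul, nz]
      norm_num
    by_contra hlt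
    push Not at hlt
    nlinarith [norm_nonneg (1 - ζ)]
  have hF0 := norm_nonneg F
  -- the three distances
  have d1 : ‖F‖ ≤ ‖(x : ℂ) - F‖ + ‖(x : ℂ) - ζ * F‖ := by
    have h1 : (1 - ζ) * F = ((x : ℂ) - ζ * F) - ((x : ℂ) - F) := by ring
    have h2 : ‖(1 - ζ) * F‖ ≤ ‖(x : ℂ) - ζ * F‖ + ‖(x : ℂ) - F‖ := by
      rw [h1]
      exact norm_sub_le _ _
    rw [norm_mul] at h2
    nlinarith
  have d2 : ‖F‖ ≤ ‖(x : ℂ) - F‖ + ‖(x : ℂ) - ζ ^ 2 * F‖ := by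
    have h1 : (1 - ζ) * F * ζ ^ 2 = ((x : ℂ) - F) - ((x : ℂ) - ζ ^ 2 * F) := by
      linear_combination (-F) * z3
    have h2 : ‖(1 - ζ) * F * ζ ^ 2‖ ≤ ‖(x : ℂ) - F‖ + ‖(x : ℂ) - ζ ^ 2 * F‖ := by
      rw [h1]
      exact norm_sub_le _ _
    rw [norm_mul, norm_mul, norm_pow, nz, one_pow, mul_one] at h2
    nlinarith
  have d3 : ‖F‖ ≤ ‖(x : ℂ) - ζ * F‖ + ‖(x : ℂ) - ζ ^ 2 * F‖ := by
    have h1 : (1 - ζ) * F * ζ = ((x : ℂ) - ζ ^ 2 * F) - ((x : ℂ) - ζ * F) := by ring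
    have h2 : ‖(1 - ζ) * F * ζ‖ ≤ ‖(x : ℂ) - ζ ^ 2 * F‖ + ‖(x : ℂ) - ζ * F‖ := by
      rw [h1]
      exact norm_sub_le _ _
    rw [norm_mul, norm_mul, nz, mul_one] at h2
    nlinarith
  have hprod : ‖(x : ℂ) - F‖ * ‖(x : ℂ) - ζ * F‖ * ‖(x : ℂ) - ζ ^ 2 * F‖ ≤ 2 * x := by
    rw [← norm_mul, ← norm_mul]
    have : ((x : ℂ) - F) * ((x : ℂ) - ζ * F) * ((x : ℂ) - ζ ^ 2 * F) = -(F ^ 3 - (x : ℂ) ^ 3) := by
      linear_combination (-(F : ℂ) * (x : ℂ) ^ 2 + (x : ℂ) * F ^ 2 * ζ) * hζ - F ^ 3 * z3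
    rw [this, norm_neg]
    exact h
  -- size of F
  have sF : x / 2 ≤ ‖F‖ := by
    have h1 : x ^ 3 ≤ ‖F‖ ^ 3 + 2 * x := by
      have h2 : ‖(x : ℂ) ^ 3‖ ≤ ‖F ^ 3‖ + ‖F ^ 3 - (x : ℂ) ^ 3‖ := by
        have : (x : ℂ) ^ 3 = F ^ 3 - (F ^ 3 - (x : ℂ) ^ 3) := by ring
        conv_lhs => rw [this]
        exact norm_sub_le _ _
      rw [norm_pow, norm_pow, Complex.norm_real, Real.norm_eq_abs, abs_of_pos xp] at h2
      linarith
    have h2 : (x / 2) ^ 3 ≤ ‖F‖ ^ 3 := by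
      have h3 : 4 * x ≤ x ^ 3 := by
        nlinarith [mul_nonneg xp.le (by nlinarith : 0 ≤ x ^ 2 - 4)]
      have h4 : (x / 2) ^ 3 = x ^ 3 / 8 := by ring
      rw [h4]
      nlinarith [pow_pos xp 3]
    exact le_of_pow_le_pow_left₀ (by norm_num) hF0 h2
  -- conclusion
  have fin : ∀ A : ℝ, 0 ≤ A → A * ‖F‖ ^ 2 ≤ 4 * (2 * x) → A ≤ x ^ (-(1 / 2 : ℝ)) := by
    intro A hA hAF
    have e1 : (x / 2) ^ 2 ≤ ‖F‖ ^ 2 := pow_le_pow_left₀ (by linarith) sF 2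
    have e2 : A * (x / 2) ^ 2 ≤ 8 * x := by
      have := mul_le_mul_of_nonneg_left e1 hA
      linarith
    have e3 : A * x ≤ 32 := by
      have : (A * x) * x ≤ 32 * x := by nlinarith
      exact le_of_mul_le_mul_right this xp
    have e4 : (32 : ℝ) ≤ x ^ (1 / 2 : ℝ) := by
      have : (32 : ℝ) = (1024 : ℝ) ^ (1 / 2 : ℝ) := by
        rw [← Real.sqrt_eq_rpow, show (1024 : ℝ) = 32 ^ 2 by norm_num,
          Real.sqrt_sq (by norm_num)]
      rw [this]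
      exact Real.rpow_le_rpow (by norm_num) (by linarith) (by norm_num)
    have e5 : x ^ (-(1 / 2 : ℝ)) * x = x ^ (1 / 2 : ℝ) := by
      nth_rw 2 [← Real.rpow_one x]
      rw [← Real.rpow_add xp]
      norm_num
    have e6 : A * x ≤ x ^ (-(1 / 2 : ℝ)) * x := by
      rw [e5]
      linarith
    exact le_of_mul_le_mul_right e6 xp
  rcases three (norm_nonneg _) (norm_nonneg _) (norm_nonneg _) hF0 d1 d2 d3 hprod with h | h | h
  · refine ⟨0, ?_⟩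
    have := fin _ (norm_nonneg _) h
    simpa using this
  · refine ⟨1, ?_⟩
    have := fin _ (norm_nonneg _) h
    simpa using this
  · refine ⟨2, ?_⟩
    have := fin _ (norm_nonneg _) h
    simpa using this

/-- the analytic part -/
theorem ana (t K : ℕ) (δ C : ℝ) (c : ℕ → ℂ) (ζ : ℂ) (hζ : ζ ^ 2 + ζ + 1 = 0) (hC : 1 ≤ C)
    (hδ : 0 < δ) (hK : 7 ≤ δ * K)
    (hbin : ∀ v : ℂ, ‖v‖ ≤ 1 →
      ‖(∑ k ∈ Finset.range K, c k * v ^ k) ^ 3 - (1 + v) ^ 2‖ ≤ C * ‖v‖ ^ K) :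
    ∃ B0 : ℝ, 2 ≤ B0 ∧ ∀ (w s : ℂ) (x : ℝ), B0 ≤ ‖w‖ → ‖s‖ ≤ t * ‖w‖ ^ (3 - δ) → 2048 ≤ x →
      ‖(w ^ 3 + s) ^ 2 - (x : ℂ) ^ 3‖ ≤ x →
      ∃ i : Fin 3, ‖(x : ℂ) - ζ ^ (i : ℕ) *
        (w ^ 2 * ∑ k ∈ Finset.range K, c k * (s / w ^ 3) ^ k)‖ ≤ x ^ (-(1 / 2 : ℝ)) := by
  have h1 : ∀ᶠ W : ℝ in Filter.atTop, (t : ℝ) ≤ W ^ δ :=
    (tendsto_rpow_atTop hδ).eventually_ge_atTop _
  obtain ⟨B, hB⟩ := Filter.eventually_atTop.1 h1
  refine ⟨max B (max 2 (C * (t : ℝ) ^ K)), (le_max_left _ _).trans (le_max_right _ _),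
    fun w s x hw hs hx hd => ?_⟩
  have b1 := hB ‖w‖ ((le_max_left _ _).trans hw)
  have w2 : (2 : ℝ) ≤ ‖w‖ := ((le_max_left _ _).trans (le_max_right _ _)).trans hw
  have w3 : C * (t : ℝ) ^ K ≤ ‖w‖ := ((le_max_right _ _).trans (le_max_right _ _)).trans hw
  set W := ‖w‖ with hW
  have Wp : 0 < W := by linarith
  have w0 : w ≠ 0 := by
    intro h
    rw [hW, h, norm_zero] at Wp
    exact lt_irrefl _ Wp
  set v := s / w ^ 3 with hv
  have hy : w ^ 3 + s = w ^ 3 * (1 + v) := by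
    rw [hv]
    field_simp
  have v1 : ‖v‖ ≤ t * W ^ (-δ) := by
    rw [hv, norm_div, norm_pow, ← hW, div_le_iff₀ (by positivity), mul_assoc]
    refine hs.trans (le_of_eq ?_)
    congr 1
    rw [← Real.rpow_natCast, ← Real.rpow_add Wp]
    congr 1
    push_cast
    ring
  have v2 : ‖v‖ ≤ 1 := by
    refine v1.trans ?_
    rw [Real.rpow_neg Wp.le, ← div_eq_mul_inv, div_le_iff₀ (by positivity)]
    linarith
  have v3 : ‖v‖ ^ K ≤ (t : ℝ) ^ K * W ^ (-(7 : ℝ)) := by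
    have h3 := pow_le_pow_left₀ (norm_nonneg v) v1 K
    rw [mul_pow, ← Real.rpow_natCast (W ^ (-δ)) K, ← Real.rpow_mul Wp.le] at h3
    refine h3.trans (mul_le_mul_of_nonneg_left ?_ (by positivity))
    exact Real.rpow_le_rpow_of_exponent_le (by linarith) (by linarith)
  set F := w ^ 2 * ∑ k ∈ Finset.range K, c k * v ^ k with hF
  have e1 : ‖F ^ 3 - (w ^ 3 + s) ^ 2‖ ≤ x := by
    have h3 : F ^ 3 - (w ^ 3 + s) ^ 2 =
        w ^ 6 * ((∑ k ∈ Finset.range K, c k * v ^ k) ^ 3 - (1 + v) ^ 2) := by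
      rw [hy, hF]
      ring
    rw [h3, norm_mul, norm_pow, ← hW]
    have h4 := hbin v v2
    have h5 : W ^ 6 * ‖(∑ k ∈ Finset.range K, c k * v ^ k) ^ 3 - (1 + v) ^ 2‖ ≤
        W ^ 6 * (C * ((t : ℝ) ^ K * W ^ (-(7 : ℝ)))) := by
      refine mul_le_mul_of_nonneg_left (h4.trans ?_) (by positivity)
      exact mul_le_mul_of_nonneg_left v3 (by linarith)
    have h6 : W ^ (-(7 : ℝ)) = (W ^ 7)⁻¹ := by
      rw [Real.rpow_neg Wp.le]
      norm_cast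
    have h7 : W ^ 6 * (C * ((t : ℝ) ^ K * W ^ (-(7 : ℝ)))) = C * (t : ℝ) ^ K / W := by
      rw [h6]
      field_simp
    rw [h7] at h5
    have h8 : C * (t : ℝ) ^ K / W ≤ 1 := by
      rw [div_le_one Wp]
      exact w3
    linarith
  have e2 : ‖F ^ 3 - (x : ℂ) ^ 3‖ ≤ 2 * x := by
    have h3 : F ^ 3 - (x : ℂ) ^ 3 =
        (F ^ 3 - (w ^ 3 + s) ^ 2) + ((w ^ 3 + s) ^ 2 - (x : ℂ) ^ 3) := by ring
    rw [h3]
    exact (norm_add_le _ _).trans (by linarith)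
  exact near ζ F x hζ hx e2

/-- the Laurent polynomial -/
noncomputable def FF {M : Type} [Field M] {r : ℕ} (K : ℕ) (c : ℕ → ℚ) (z : M)
    (W Wi V : LauM M r) : LauM M r :=
  AddMonoidAlgebra.single 0 z * W ^ 2 *
    ∑ k ∈ Finset.range K, AddMonoidAlgebra.single 0 (c k : M) * (V * Wi ^ 3) ^ k

theorem ev_FF {M : Type} [Field M] {r : ℕ} (K : ℕ) (c : ℕ → ℚ) (z : M) (W Wi V : LauM M r)
    (u : Fin r → M) (hu : ∀ k, u k ≠ 0) :
    evM u (FF K c z W Wi V) = z * evM u W ^ 2 *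
      ∑ k ∈ Finset.range K, (c k : M) * (evM u V * evM u Wi ^ 3) ^ k := by
  have h0 : ∀ a : M, evM u (AddMonoidAlgebra.single (0 : Fin r → ℤ) a) = a := by
    intro a
    rw [Helper66.SUBK.evM_single]
    simp [monM]
  have h1 := Helper66.SUBK.evR_apply u hu
  unfold FF
  rw [← h1, map_mul, map_mul, map_pow, map_sum, h1, h0, h1]
  congr 1
  refine Finset.sum_congr rfl fun k _ => ?_
  rw [map_mul, map_pow, map_mul, map_pow, h1, h1, h1, h0]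

/-- **T1CG**. -/
theorem T1CG (hEXTR : ST_EXTR) (hEXPK : ST_EXPK) (hCONJ : ST_CONJ) (hSUBYK : ST_SUBYK)
    (hCOREK : ST_COREK) : ST_T1CG := by
  classical
  intro M _ _ _ S φ ζ t ε δ hS hζ hε hδ hδ3
  -- the set of counterexamples
  let τ : Type := {q : M × (Fin t → M) × ℤ × ℤ // SV S q.1 ∧ (∀ i, q.2.1 i = 0 ∨ SV S (q.2.1 i)) ∧
    (∀ i, ‖φ (q.2.1 i)‖ ≤ ‖φ q.1‖ ^ (3 - δ)) ∧ q.1 ^ 3 + ∑ i, q.2.1 i = (q.2.2.2 : M) ∧
    q.2.2.2 ^ 2 ≠ q.2.2.1 ^ 3}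
  by_contra hcon
  obtain ⟨f, hf1, hf2⟩ := hEXTR τ (fun q => q.1.2.2.1) (fun q => q.1.2.2.2) ε hε
    (fun q => q.2.2.2.2.2) (by
      rintro ⟨C, hC⟩
      exact hcon ⟨C, fun w b x y h1 h2 h3 h4 h5 => hC ⟨(w, b, x, y), h1, h2, h3, h4, h5⟩⟩)
  set w : ℕ → M := fun j => (f j).1.1 with hw
  set b : ℕ → Fin t → M := fun j => (f j).1.2.1 with hb
  set x : ℕ → ℤ := fun j => (f j).1.2.2.1 with hx
  set y : ℕ → ℤ := fun j => (f j).1.2.2.2 with hy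
  have wSV : ∀ j, SV S (w j) := fun j => (f j).2.1
  have bSV : ∀ j i, b j i = 0 ∨ SV S (b j i) := fun j => (f j).2.2.1
  have bW : ∀ j i, ‖φ (b j i)‖ ≤ ‖φ (w j)‖ ^ (3 - δ) := fun j => (f j).2.2.2.1
  have hyw : ∀ j, w j ^ 3 + ∑ i, b j i = (y j : M) := fun j => (f j).2.2.2.2.1
  have hne : ∀ j, y j ^ 2 ≠ x j ^ 3 := fun j => (f j).2.2.2.2.2
  have hx1 : ∀ j : ℕ, (j : ℝ) ≤ |(x j : ℝ)| := hf1
  have hd1 : ∀ j, |((y j ^ 2 - x j ^ 3 : ℤ) : ℝ)| ≤ |(x j : ℝ)| ^ (1 / (2 + ε)) := hf2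
  -- the first facts
  have hxpos : ∀ j : ℕ, 2 ≤ j → (2 : ℝ) ≤ x j ∧ |(y j : ℝ) ^ 2 - (x j : ℝ) ^ 3| ≤ x j := by
    intro j hj
    have h2 : (2 : ℝ) ≤ |(x j : ℝ)| := le_trans (by exact_mod_cast hj) (hx1 j)
    have h3 : |(x j : ℝ)| ^ (1 / (2 + ε)) ≤ |(x j : ℝ)| := by
      conv_rhs => rw [← Real.rpow_one |(x j : ℝ)|]
      refine Real.rpow_le_rpow_of_exponent_le (by linarith) ?_
      rw [div_le_one (by linarith)]
      linarith
    have h4 := (hd1 j).trans h3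
    push_cast at h4
    have h6 : (2 : ℝ) ≤ x j := by
      rcases abs_cases (x j : ℝ) with ⟨h, _⟩ | ⟨h, _⟩
      · rw [h] at h2
        exact h2
      · exfalso
        rw [h] at h2 h4
        have h7 := (abs_le.1 h4).2
        have h8 : 0 ≤ (y j : ℝ) ^ 2 := sq_nonneg _
        have h9 : (x j : ℝ) ^ 3 = -(-(x j : ℝ)) ^ 3 := by ring
        rw [h9] at h7
        set z := -(x j : ℝ) with hz
        have h10 : z < z ^ 3 := by
          nlinarith [mul_pos (by linarith : 0 < z) (by nlinarith : 0 < z ^ 2 - 1)]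
        linarith
    refine ⟨h6, ?_⟩
    rw [abs_of_nonneg (by linarith : (0 : ℝ) ≤ x j)] at h4
    exact h4
  have hxy : ∀ j : ℕ, 2 ≤ j → (x j : ℝ) ≤ (y j : ℝ) ^ 2 ∧ (y j : ℝ) ^ 2 ≤ (x j : ℝ) ^ 4 := by
    intro j hj
    obtain ⟨h1, h2⟩ := hxpos j hj
    have h3 := abs_le.1 h2
    set X := (x j : ℝ) with hX
    have h4 : 4 * X ≤ X ^ 3 := by
      nlinarith [mul_nonneg (by linarith : 0 ≤ X) (by nlinarith : 0 ≤ X ^ 2 - 4)]
    have h5 : 2 * X ^ 3 ≤ X ^ 4 := by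
      nlinarith [mul_nonneg (pow_nonneg (by linarith : 0 ≤ X) 3) (by linarith : 0 ≤ X - 2)]
    constructor <;> linarith [h3.1, h3.2]
  -- `|y| → ∞`
  have hyinf : ∀ B : ℝ, {j | |(y j : ℝ)| ≤ B}.Finite := fun B => by
    refine (Set.finite_le_nat (max 2 ⌈B ^ 2⌉₊)).subset ?_
    intro j hj
    have hj : |(y j : ℝ)| ≤ B := hj
    show j ≤ _
    by_contra hlt
    push Not at hlt
    have hj2 : 2 ≤ j := (lt_of_le_of_lt (le_max_left _ _) hlt).le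
    obtain ⟨h1, h2⟩ := hxy j hj2
    have h3 : (y j : ℝ) ^ 2 ≤ B ^ 2 := by
      rw [← sq_abs]
      exact pow_le_pow_left₀ (abs_nonneg _) hj 2
    have h7 := (hx1 j)
    rw [abs_of_nonneg (by linarith [(hxpos j hj2).1] : (0 : ℝ) ≤ x j)] at h7
    have h8 : (j : ℝ) ≤ ⌈B ^ 2⌉₊ := ((h7.trans h1).trans h3).trans (Nat.le_ceil _)
    have h9 : j ≤ ⌈B ^ 2⌉₊ := by exact_mod_cast h8
    exact absurd (lt_of_le_of_lt (le_max_right _ _) hlt) (not_lt.2 h9)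
  -- `‖φ w‖ → ∞`
  have hwinf : ∀ B : ℝ, {j | ‖φ (w j)‖ ≤ B}.Finite := fun B => by
    refine (hyinf ((1 + t) * (max B 1) ^ 3)).subset ?_
    intro j hj
    exact Helper94.SUBK.grow φ (n := 3) hδ (by push_cast; exact hδ3) (w := w j) (a := b j)
      (by intro i; push_cast; exact bW j i) (hyw j) (le_max_right _ _)
      ((show ‖φ (w j)‖ ≤ B from hj).trans (le_max_left _ _))
  -- the binomial series
  obtain ⟨K, hK⟩ : ∃ K : ℕ, 7 ≤ δ * K := by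
    obtain ⟨K, hK⟩ := exists_nat_ge (7 / δ)
    exact ⟨K, by rw [div_le_iff₀ hδ] at hK; linarith⟩
  have hK1 : 1 ≤ K := by
    rcases Nat.eq_zero_or_pos K with h | h
    · rw [h] at hK
      norm_num at hK
    · exact h
  obtain ⟨c, C, -, hC1, hbin⟩ := (hEXPK K hK1).2
  have hζφ : φ ζ ^ 2 + φ ζ + 1 = 0 := by
    have h1 := congrArg φ hζ
    rw [map_add, map_add, map_pow, map_one, map_zero] at h1
    exact h1
  obtain ⟨B0, hB0, hana⟩ := ana t K δ C (fun k => (c k : ℂ)) (φ ζ) hζφ hC1 hδ hK hbin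
  -- restriction
  set M1 : Set ℕ := {j | 2048 ≤ j ∧ B0 ≤ ‖φ (w j)‖} with hM1
  have hM1i : M1.Infinite := by
    have h1 : (Set.univ \ ({j | ‖φ (w j)‖ ≤ B0} ∪ {j | j ≤ 2048}) : Set ℕ).Infinite :=
      Set.infinite_univ.sdiff ((hwinf B0).union (Set.finite_le_nat 2048))
    refine h1.mono ?_
    rintro j ⟨-, hj⟩
    rw [Set.mem_union, not_or] at hj
    exact ⟨(not_le.1 hj.2).le, (not_le.1 hj.1).le⟩
  have hM1j : ∀ j ∈ M1, ∃ i : Fin 3, ‖((x j : ℝ) : ℂ) - φ ζ ^ (i : ℕ) * (φ (w j) ^ 2 *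
      ∑ k ∈ Finset.range K, (c k : ℂ) * ((∑ i, φ (b j i)) / φ (w j) ^ 3) ^ k)‖ ≤
        (x j : ℝ) ^ (-(1 / 2 : ℝ)) := by
    intro j hj
    have hj2 : 2 ≤ j := by
      have := hj.1
      omega
    obtain ⟨h1, h2⟩ := hxpos j hj2
    have h3 : (2048 : ℝ) ≤ x j := by
      have h4 := hx1 j
      rw [abs_of_nonneg (by linarith : (0 : ℝ) ≤ x j)] at h4
      have h5 : (2048 : ℝ) ≤ j := by exact_mod_cast hj.1
      linarith
    refine hana (φ (w j)) (∑ i, φ (b j i)) (x j) hj.2 ?_ h3 ?_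
    · refine (norm_sum_le _ _).trans ((Finset.sum_le_sum fun i _ => bW j i).trans (le_of_eq ?_))
      rw [Finset.sum_const, Finset.card_univ, Fintype.card_fin, nsmul_eq_mul]
    · have h4 : φ (w j) ^ 3 + ∑ i, φ (b j i) = ((y j : ℝ) : ℂ) := by
        have h5 := congrArg φ (hyw j)
        rw [map_add, map_pow, map_sum, map_intCast] at h5
        rw [h5]
        push_cast
        rfl
      rw [h4]
      have h5 : (((y j : ℝ) : ℂ)) ^ 2 - (((x j : ℝ) : ℂ)) ^ 3 =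
          (((y j : ℝ) ^ 2 - (x j : ℝ) ^ 3 : ℝ) : ℂ) := by push_cast; ring
      rw [h5, Complex.norm_real, Real.norm_eq_abs]
      exact h2
  -- the root of unity
  have hidx : ∀ j, ∃ i : Fin 3, j ∈ M1 → ‖((x j : ℝ) : ℂ) - φ ζ ^ (i : ℕ) * (φ (w j) ^ 2 *
      ∑ k ∈ Finset.range K, (c k : ℂ) * ((∑ i, φ (b j i)) / φ (w j) ^ 3) ^ k)‖ ≤
        (x j : ℝ) ^ (-(1 / 2 : ℝ)) := by
    intro j
    by_cases hj : j ∈ M1
    · obtain ⟨i, hi⟩ := hM1j j hj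
      exact ⟨i, fun _ => hi⟩
    · exact ⟨0, fun h => absurd h hj⟩
  choose ι hι using hidx
  obtain ⟨i0, hi0⟩ : ∃ i0, {j | j ∈ M1 ∧ ι j = i0}.Infinite := by
    by_contra h
    push Not at h
    apply hM1i
    have hsub : M1 ⊆ ⋃ k, {j | j ∈ M1 ∧ ι j = k} := by
      intro j hj
      rw [Set.mem_iUnion]
      exact ⟨ι j, hj, rfl⟩
    exact (Set.finite_iUnion h).subset hsub
  set M2 : Set ℕ := {j | j ∈ M1 ∧ ι j = i0} with hM2
  -- conjugates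
  obtain ⟨M', S', P, r, u, E, W, Wi, V, hM'M, hM'i, hS', hE, hP, hInd, hcom⟩ :=
    hCONJ M S φ 3 t δ M2 w b y hS (by norm_num) hδ (by push_cast; exact hδ3) hi0
      (fun j _ => wSV j) (fun j _ => bSV j) (fun j _ i => by push_cast; exact bW j i)
      (fun j _ => hyw j) (fun B => (hyinf B).subset fun j hj => hj.2)
  have hj2 : ∀ j ∈ M', 2 ≤ j := fun j hj => by
    have := (hM'M hj).1.1
    omega
  set a : ℝ := max (2 * E) 1 with ha
  have hHB : ∀ j ∈ M', ∀ k, SV S' (u j k) ∧ HB P ((x j : ℝ) ^ a) (u j k) := by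
    intro j hj k
    obtain ⟨h1, h2, -⟩ := hcom j hj
    refine ⟨(h2 k).1, Helper94.SUBK.HB_mono ?_ (h2 k).2⟩
    obtain ⟨h3, h4⟩ := hxpos j (hj2 j hj)
    have h5 := (hxy j (hj2 j hj)).2
    have h6 : |(y j : ℝ)| ≤ (x j : ℝ) ^ (2 : ℕ) := by
      refine abs_le_of_sq_le_sq ?_ (by positivity)
      calc (y j : ℝ) ^ 2 ≤ (x j : ℝ) ^ 4 := h5
        _ = _ := by ring
    calc |(y j : ℝ)| ^ E ≤ ((x j : ℝ) ^ (2 : ℕ)) ^ E :=
          Real.rpow_le_rpow (abs_nonneg _) h6 hE.le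
      _ = (x j : ℝ) ^ (2 * E) := by
          rw [← Real.rpow_natCast, ← Real.rpow_mul (by linarith)]
          norm_num
      _ ≤ _ := Real.rpow_le_rpow_of_exponent_le (by linarith) (le_max_left _ _)
  have hxabs : ∀ j ∈ M', |(x j : ℝ)| = x j := fun j hj =>
    abs_of_nonneg (by linarith [(hxpos j (hj2 j hj)).1])
  have hxfin : ∀ (T : Set ℕ) (B : ℝ), {j | j ∈ T ∧ |(x j : ℝ)| ≤ B}.Finite := fun T B => by
    refine (Set.finite_le_nat ⌈B⌉₊).subset ?_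
    rintro j ⟨-, hj⟩
    have h1 : (j : ℝ) ≤ ⌈B⌉₊ := ((hx1 j).trans hj).trans (Nat.le_ceil _)
    exact_mod_cast h1
  have ha0 : 0 < a := lt_of_lt_of_le one_pos (le_max_right _ _)
  obtain ⟨M'', G, hM''M', hM''i, hG⟩ := hSUBYK M S' P r M' u
    (fun σ => FF K c (σ.symm (ζ ^ (i0 : ℕ))) (W σ) (Wi σ) (V σ)) a (1 / 2)
    (fun j => |(x j : ℝ)|) x hS' hM'i (by norm_num) ha0 hInd (hxfin M') (fun j hj => by
      have hxj := (hxpos j (hj2 j hj)).1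
      refine ⟨by rw [hxabs j hj]; linarith, ?_, ?_, ?_⟩
      · rw [hxabs j hj]
        exact hHB j hj
      · rw [hxabs j hj]
        conv_lhs => rw [← Real.rpow_one (x j : ℝ)]
        exact Real.rpow_le_rpow_of_exponent_le (by linarith) (le_max_right _ _)
      · intro σ
        obtain ⟨-, -, h3⟩ := hcom j hj
        obtain ⟨k1, k2, k3⟩ := h3 σ
        have h4 := hι j (hM'M hj).1
        rw [(hM'M hj).2] at h4
        have h5 : σ ((x j : M) - evM (u j) (FF K c (σ.symm (ζ ^ (i0 : ℕ))) (W σ) (Wi σ) (V σ))) =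
            (x j : M) - ζ ^ (i0 : ℕ) * (w j ^ 2 *
              ∑ k ∈ Finset.range K, (c k : M) * ((∑ i, b j i) / w j ^ 3) ^ k) := by
          rw [ev_FF K c _ _ _ _ (u j) (hInd.1 j hj), k1, k2, k3, map_sub, map_intCast, map_mul,
            map_mul, map_sum, AlgEquiv.apply_symm_apply, map_pow, AlgEquiv.apply_symm_apply,
            mul_assoc]
          congr 3
          refine Finset.sum_congr rfl fun k _ => ?_
          rw [map_mul, map_pow, map_mul, map_pow, map_inv₀, AlgEquiv.apply_symm_apply,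
            AlgEquiv.apply_symm_apply, map_ratCast, inv_pow, div_eq_mul_inv]
        rw [h5, hP, hxabs j hj]
        refine le_trans (le_of_eq ?_) h4
        congr 1
        rw [map_sub, map_mul, map_mul, map_pow, map_pow, map_sum, map_intCast]
        push_cast
        congr 3
        refine Finset.sum_congr rfl fun k _ => ?_
        rw [map_mul, map_pow, map_div₀, map_sum, map_pow, map_ratCast])
  -- the core
  refine hCOREK M S' P r M'' u G (W 1 ^ 3 + V 1) a ε x y hS' hM''i hε ha0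
    ⟨fun j hj => hInd.1 j (hM''M' hj), fun l ρ hl =>
      (hInd.2 l ρ hl).subset fun j hj => ⟨hM''M' hj.1, hj.2⟩⟩ (hxfin M'') fun j hj => ?_
  have hj' := hM''M' hj
  refine ⟨?_, hG j hj, ?_, hne j, hd1 j⟩
  · rw [hxabs j hj']
    exact hHB j hj'
  · obtain ⟨-, -, h3⟩ := hcom j hj'
    obtain ⟨k1, k2, k3⟩ := h3 1
    have h1 := Helper66.SUBK.evR_apply (u j) (hInd.1 j hj')
    rw [← h1, map_add, map_pow, h1, h1, k1, k3, ← hyw j]
    rfl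

end Pool.Agent.Helper2.SUBK
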